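import Pool.Agent.X323.GI.Cond

/-!
# Hyperbolicity conditions for very general pairs in projective space

Let `H_a`, `a ∈ A`, be very general forms of degrees `d_a` in `n + 1` variables over the complex
numbers, let `C` be a proper subset of `A`, let `V` be the complete intersection `H_c = 0`, `c ∈ C`,
in the projective space of dimension `n` (all of the projective space for empty `C`), let `D` be the
union of the hypersurface sections `H_b = 0`, `b ∉ C`, and let `X` be the affine variety `V ∖ D`.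
Suppose that `3 n + 3 ≤ 2 ∑ d_a + |C|`.

For closed subsets `Δ` of `X` we prove that the conditions 3 and 5 of the extended Lang-Vojta
conjecture modulo `Δ`, the corresponding condition 4 for the subvarieties of `X` which are not
contained in `Δ`, and the condition 2 for the entire curves built from jointly universal families
(for instance from the Riemann zeta function), are all equivalent: `X` is bounded modulo `Δ` if and
only if for every variety `Y` and point `y` of `Y` only finitely many morphisms from `Y` to `X` map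
`y` to a given point outside of `Δ`, if and only if all subvarieties of positive dimension not
contained in `Δ` are of log general type, if and only if all lines in `V` which meet `D` in at most
two points lie in `Δ`. For `|C| < n` all these conditions hold for some proper closed subset `Δ`, and
for `2 n + 1 ≤ ∑ d_a + |C|` they hold for the empty set.

Definitions from the library: `MapD H d C S f` says that `f` gives a morphism to `X` from the smooth
projective curve with function field `L` without the points in `S`. The ring `CRing q y u` is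
generated by the elements `y ^ α u`, where `α` has degree `q`; with the coordinates `py` and the
inverse `pu` of the product of the `H_b`, `b ∉ C`, as functions on the cone `PX` over `X`, it is the
coordinate ring of `X`. The ideal `idl p y u 𝒢` is generated by the values of the forms in `𝒢` at the
vectors `(y_i y_j ^ p u)_i`; it defines the closed subset given by `𝒢`.
-/

set_option autoImplicit false

namespace Pool.Agent.Results.MP_c69980_ag.GenericPairConditions

open MvPolynomial FF Pool.Agent.W603.PV Pool.Agent.W602.GT Pool.Agent.TH145.MG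
open Pool.Agent.W603.LV
open scoped LinearAlgebra.Projectivization
open Pool.Agent.TH143.EL (HolMap)
open Pool.Agent.Y377.IL (IterLin AlgebraicOver)
open Pool.Agent.X316.ZG (JointlyUniversal dring LogCurve)
open Pool.Agent.Y193 (FinitePointedMaps BoundedModulo)
open Pool.Agent.X323.GI (MapD CRing idl py pu)

/-- Very general forms of degrees `d a`: their coefficients are, for all `a` together, algebraically
independent over the rational numbers. -/
def VeryGeneral {A : Type} {n : ℕ} (H : A → MvPolynomial (Fin (n + 1)) ℂ) (d : A → ℕ) : Prop :=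
  (∀ a, (H a).IsHomogeneous (d a)) ∧
    AlgebraicIndependent ℚ fun p : (a : A) × {I : Fin (n + 1) →₀ ℕ // I.degree = d a} =>
      (H p.1).coeff p.2.1

/-- A set of forms. -/
def Forms {n : ℕ} (𝒢 : Set (MvPolynomial (Fin (n + 1)) ℂ)) : Prop := ∀ G ∈ 𝒢, ∃ e, G.IsHomogeneous e

/-- A line, given by a vector space `W` of dimension two, that is contained in `H c = 0` for all
`c` in `C` and meets the union of the hypersurfaces `H b = 0`, `b ∉ C`, in at most two points. -/
def Exceptional {A : Type} {n : ℕ} (H : A → MvPolynomial (Fin (n + 1)) ℂ) (C : Finset A)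
    (W : Submodule ℂ (Fin (n + 1) → ℂ)) : Prop :=
  (Module.finrank ℂ W = 2 ∧ ∀ c ∈ C, ∀ v ∈ W, eval v (H c) = 0) ∧
    {p : ℙ ℂ (Fin (n + 1) → ℂ) | p.rep ∈ W ∧ ∃ b, b ∉ C ∧ eval p.rep (H b) = 0}.encard ≤ 2

/-- `K` is (a finite extension of) the function field, and `y` the generic point, of a closed
subvariety of dimension `w` of `X = V ∖ D`. -/
def Subvariety {A K : Type} [Field K] [Algebra ℂ K] {n : ℕ}
    (H : A → MvPolynomial (Fin (n + 1)) ℂ) (C : Finset A) (w : ℕ) (y : Fin (n + 1) → K) : Prop :=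
  (y ≠ 0 ∧ (∀ c ∈ C, aeval y (H c) = 0) ∧ ∀ b, b ∉ C → aeval y (H b) ≠ 0) ∧
    Algebra.trdeg ℂ K = w ∧ Algebra.IsAlgebraic (coords ℂ y) K

/-- The subvariety with generic point `y` is of log general type: the boundary consists of the prime
divisors whose centre lies on some `H b = 0`, `b ∉ C`. -/
def LogGT {A K : Type} [Field K] [Algebra ℂ K] {n : ℕ} (H : A → MvPolynomial (Fin (n + 1)) ℂ)
    (d : A → ℕ) (C : Finset A) (w : ℕ) (y : Fin (n + 1) → K) : Prop :=
  LogGeneralType ℂ K w fun Q : Place ℂ K =>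
    ∃ b, b ∉ C ∧ d b * pord Q y < Q.ord (aeval y (H b))

/-- All closed subvarieties of `X` of positive dimension that are not contained in the closed subset
`Δ` given by `𝒢` are of log general type. -/
def LogGTOutside {A : Type} {n : ℕ} (H : A → MvPolynomial (Fin (n + 1)) ℂ) (d : A → ℕ)
    (C : Finset A) (𝒢 : Set (MvPolynomial (Fin (n + 1)) ℂ)) : Prop :=
  ∀ (K : Type) [Field K] [Algebra ℂ K] (w : ℕ) (y : Fin (n + 1) → K), 0 < w →
    Subvariety H C w y → (∃ G ∈ 𝒢, aeval y G ≠ 0) → LogGT H d C w y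

/-- `f` is an entire curve in `X = V ∖ D` which is built from the functions `u j`. -/
structure BuiltCurve {A ι : Type} [Fintype A] [DecidableEq A] {n : ℕ}
    (H : A → MvPolynomial (Fin (n + 1)) ℂ) (d : A → ℕ) (C : Finset A) (u : ι → ℂ → ℂ)
    (f : ℂ → ℙ ℂ (Fin (n + 1) → ℂ)) : Prop where
  hol : HolMap f
  mem : ∀ z, ∀ c ∈ C, eval (f z).rep (H c) = 0
  off : ∀ z b, b ∉ C → eval (f z).rep (H b) ≠ 0
  built : (∀ α : Fin (n + 1) →₀ ℕ, ∑ j, α j = ∑ b ∈ Cᶜ, d b →
    IterLin (dring u) fun z => (∏ j, (f z).rep j ^ α j) / ∏ b ∈ Cᶜ, eval (f z).rep (H b)) ∨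
    AlgebraicOver (dring u) f

/-- All nonconstant entire curves in `X` which are built from some jointly universal family are
contained in the closed subset given by `𝒢`. -/
def BuiltIn {A : Type} [Fintype A] [DecidableEq A] {n : ℕ}
    (H : A → MvPolynomial (Fin (n + 1)) ℂ) (d : A → ℕ) (C : Finset A)
    (𝒢 : Set (MvPolynomial (Fin (n + 1)) ℂ)) : Prop :=
  ∀ (ι : Type) (u : ι → ℂ → ℂ), JointlyUniversal u → ∀ f, BuiltCurve H d C u f →
    (∃ z w, f z ≠ f w) → ∀ z, ∀ G ∈ 𝒢, eval (f z).rep G = 0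

/-- There is a constant `B` such that the degree of every morphism, with image not contained in the
closed subset given by `𝒢`, from a smooth projective curve of genus `g` without `s` points to `X` is
at most `B max(2 g - 2 + s, 0)`. -/
def LinearlyBounded {A : Type} {n : ℕ} (H : A → MvPolynomial (Fin (n + 1)) ℂ) (d : A → ℕ)
    (C : Finset A) (𝒢 : Set (MvPolynomial (Fin (n + 1)) ℂ)) : Prop :=
  ∃ B : ℕ, ∀ (L : Type) [Field L] [Algebra ℂ L] [IsFF ℂ L] (S : Finset (Place ℂ L))
    (f : Fin (n + 1) → L), MapD H d C S f → (∃ G ∈ 𝒢, aeval f G ≠ 0) →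
      pht ℂ f ≤ B * max (canDeg ℂ L + S.card) 0

/-- All exceptional lines are contained in the closed subset given by `𝒢`. -/
def LinesIn {A : Type} {n : ℕ} (H : A → MvPolynomial (Fin (n + 1)) ℂ) (C : Finset A)
    (𝒢 : Set (MvPolynomial (Fin (n + 1)) ℂ)) : Prop :=
  ∀ W, Exceptional H C W → ∀ v ∈ W, ∀ G ∈ 𝒢, eval v G = 0

/-- The affine variety with the coordinate ring `CRing (p + 1) y u` is bounded modulo the closed
subset given by `𝒢`. -/
def Bounded {R : Type} [CommRing R] [Algebra ℂ R] {n : ℕ} (p : ℕ) (y : Fin (n + 1) → R) (u : R)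
    (𝒢 : Set (MvPolynomial (Fin (n + 1)) ℂ)) : Prop :=
  BoundedModulo (CRing (p + 1) y u) (idl p y u 𝒢)

/-- For every variety `Y` and point of `Y`, only finitely many morphisms from `Y` to the affine
variety with the coordinate ring `CRing (p + 1) y u` map this point to a given point outside of the
closed subset given by `𝒢`. -/
def FinitePointed {R : Type} [CommRing R] [Algebra ℂ R] {n : ℕ} (p : ℕ) (y : Fin (n + 1) → R)
    (u : R) (𝒢 : Set (MvPolynomial (Fin (n + 1)) ℂ)) : Prop :=
  FinitePointedMaps (CRing (p + 1) y u) (idl p y u 𝒢)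

/-- The conditions for the closed subvariety `W` of `X` with generic point `y`: some closed subset
`G = 0` which does not contain `W` contains all subvarieties of `X` of positive dimension which are
not of log general type and all nonconstant built curves in `X`, and the conditions on morphisms hold
for `W` modulo this subset. -/
def GoodSubvariety {A K : Type} [Fintype A] [DecidableEq A] [Field K] [Algebra ℂ K] {n : ℕ}
    (H : A → MvPolynomial (Fin (n + 1)) ℂ) (d : A → ℕ) (C : Finset A) (p : ℕ)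
    (y : Fin (n + 1) → K) : Prop :=
  ∃ (G : MvPolynomial (Fin (n + 1)) ℂ) (e : ℕ), G.IsHomogeneous e ∧ aeval y G ≠ 0 ∧
    LogGTOutside H d C {G} ∧ BuiltIn H d C {G} ∧ LinearlyBounded H d C {G} ∧
    idl p y (aeval y (∏ b ∈ Cᶜ, H b))⁻¹ {G} ≠ ⊥ ∧
    Bounded p y (aeval y (∏ b ∈ Cᶜ, H b))⁻¹ {G} ∧ FinitePointed p y (aeval y (∏ b ∈ Cᶜ, H b))⁻¹ {G}

theorem curve_iff {A ι : Type} [Fintype A] [DecidableEq A] {n : ℕ}
    {H : A → MvPolynomial (Fin (n + 1)) ℂ} {d : A → ℕ} {C : Finset A} {u : ι → ℂ → ℂ}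
    (hH : ∀ a, (H a).IsHomogeneous (d a)) {f : ℂ → ℙ ℂ (Fin (n + 1) → ℂ)} :
    BuiltCurve H d C u f ↔ LogCurve (Pool.Agent.X323.GI.eqsC H C) (Pool.Agent.X323.GI.bdry H C)
      (∑ b ∈ Cᶜ, d b) u f := by
  have h1 : ∀ z, eval (f z).rep (Pool.Agent.X323.GI.bdry H C) =
      ∏ b ∈ Cᶜ, eval (f z).rep (H b) := fun z => map_prod _ _ _
  constructor
  · rintro ⟨h2, h3, h4, h5⟩
    refine ⟨h2, fun z G hG _ => Pool.Agent.X323.GI.eqsC_le (h3 z) hG,
      fun z => Pool.Agent.X323.GI.bdry_ne.2 (h4 z), ?_⟩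
    simp only [h1]
    exact h5
  · rintro ⟨h2, h3, h4, h5⟩
    refine ⟨h2, fun z c hc => h3 z (H c) (Ideal.subset_span ⟨c, hc, rfl⟩) ⟨d c, hH c⟩,
      fun z => Pool.Agent.X323.GI.bdry_ne.1 (h4 z), ?_⟩
    simp only [h1] at h5
    exact h5

theorem in_iff {A : Type} [Fintype A] [DecidableEq A] {n : ℕ}
    {H : A → MvPolynomial (Fin (n + 1)) ℂ} {d : A → ℕ} {C : Finset A}
    (hH : ∀ a, (H a).IsHomogeneous (d a)) {𝒢 : Set (MvPolynomial (Fin (n + 1)) ℂ)}
    (h𝒢 : Forms 𝒢) : BuiltIn H d C 𝒢 ↔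
      ∀ G ∈ 𝒢, Pool.Agent.X316.ZC.LogIn (Pool.Agent.X323.GI.eqsC H C) (Ideal.span {G})
        (Pool.Agent.X323.GI.bdry H C) (∑ b ∈ Cᶜ, d b) := by
  constructor
  · intro h G hG ι u hu f hf hnc z G' hG' _
    obtain ⟨q, rfl⟩ := Ideal.mem_span_singleton.1 hG'
    rw [map_mul, h ι u hu f ((curve_iff hH).2 hf) hnc z G hG, zero_mul]
  · intro h ι u hu f hf hnc z G hG
    exact h G hG ι u hu f ((curve_iff hH).1 hf) hnc z G (Ideal.subset_span rfl) (h𝒢 G hG)

theorem out_iff {A : Type} {n : ℕ} {H : A → MvPolynomial (Fin (n + 1)) ℂ} {d : A → ℕ}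
    {C : Finset A} {𝒢 : Set (MvPolynomial (Fin (n + 1)) ℂ)} :
    LogGTOutside H d C 𝒢 ↔ ∀ G ∈ 𝒢, Pool.Agent.Y741.StrL H d C G :=
  ⟨fun h G hG K _ _ w y hw hy hne => h K w y hw hy ⟨G, hG, hne⟩,
    fun h K _ _ w y hw hy ⟨G, hG, hne⟩ => h G hG K w y hw hy hne⟩

/-- **The conditions of the extended Lang-Vojta conjecture for very general pairs.** -/
theorem result {n : ℕ} (hn : 1 ≤ n) {A : Type} [Fintype A] [DecidableEq A] {d : A → ℕ}
    (hd0 : ∀ a, 0 < d a) (C : Finset A) (hC : C ≠ Finset.univ) {p : ℕ}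
    (hp : ∑ b ∈ Cᶜ, d b = p + 1) (hd : 3 * n + 3 ≤ 2 * ∑ a, d a + C.card)
    (H : A → MvPolynomial (Fin (n + 1)) ℂ) (hH : VeryGeneral H d) :
    -- (1) the conditions modulo a closed subset
    (∀ 𝒢 : Set (MvPolynomial (Fin (n + 1)) ℂ), Forms 𝒢 →
      [LinesIn H C 𝒢, LogGTOutside H d C 𝒢, BuiltIn H d C 𝒢, LinearlyBounded H d C 𝒢,
        Bounded p (py H C) (pu H C) 𝒢, FinitePointed p (py H C) (pu H C) 𝒢].TFAE) ∧
    -- (2) all conditions hold for the closed subvarieties of large dimension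
    (∀ (K : Type) [Field K] [Algebra ℂ K] (w : ℕ) (y : Fin (n + 1) → K), 0 < w →
      2 * n + 2 ≤ ∑ a, d a + C.card + w → Subvariety H C w y →
      LogGT H d C w y ∧ GoodSubvariety H d C p y) ∧
    -- (3) the range of the empty set
    (2 * n + 1 ≤ ∑ a, d a + C.card → LogGTOutside H d C {1} ∧ BuiltIn H d C {1} ∧
      LinearlyBounded H d C {1} ∧ FinitePointed p (py H C) (pu H C) {1}) ∧
    (∑ c ∈ C, (d c + 1) ≤ 2 * (n - 1) →
      [2 * n + 1 ≤ ∑ a, d a + C.card, LogGTOutside H d C {1}, BuiltIn H d C {1},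
        LinearlyBounded H d C {1}, Bounded p (py H C) (pu H C) {1},
        FinitePointed p (py H C) (pu H C) {1}].TFAE) := by
  obtain ⟨hf, hind⟩ := hH
  have hC' : ∃ b, b ∉ C := by
    by_contra hcon
    push Not at hcon
    exact hC (Finset.eq_univ_iff_forall.2 hcon)
  have key : ∀ 𝒢 : Set (MvPolynomial (Fin (n + 1)) ℂ), Forms 𝒢 →
      [LinesIn H C 𝒢, LogGTOutside H d C 𝒢, BuiltIn H d C 𝒢, LinearlyBounded H d C 𝒢,
        Bounded p (py H C) (pu H C) 𝒢, FinitePointed p (py H C) (pu H C) 𝒢].TFAE := by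
    intro 𝒢 h𝒢
    rw [in_iff hf h𝒢, out_iff]
    exact Pool.Agent.X323.GI.cond_tfae hn hd0 hf hind hC' hd hp h𝒢
  have hone : Forms ({1} : Set (MvPolynomial (Fin (n + 1)) ℂ)) := by
    rintro _ rfl
    exact ⟨0, isHomogeneous_one _ _⟩
  have k1 := key {1} hone
  have hline : LinesIn H C ({1} : Set (MvPolynomial (Fin (n + 1)) ℂ)) ↔
      ∀ W, ¬ Exceptional H C W := by
    refine forall_congr' fun W => ⟨fun h hW => ?_, fun h hW => absurd hW h⟩
    have h3 := h hW 0 W.zero_mem 1 rfl
    rw [map_one] at h3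
    exact one_ne_zero h3
  rw [hline] at k1
  have k12 : (∀ W, ¬ Exceptional H C W) ↔ LogGTOutside H d C {1} := k1.out 0 1
  have k13 : (∀ W, ¬ Exceptional H C W) ↔ BuiltIn H d C {1} := k1.out 0 2
  have k14 : (∀ W, ¬ Exceptional H C W) ↔ LinearlyBounded H d C {1} := k1.out 0 3
  have k15 : (∀ W, ¬ Exceptional H C W) ↔ Bounded p (py H C) (pu H C) {1} := k1.out 0 4
  have k16 : (∀ W, ¬ Exceptional H C W) ↔ FinitePointed p (py H C) (pu H C) {1} := k1.out 0 5
  refine ⟨key, ?_, fun h => ?_, fun h => ?_⟩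
  · intro K _ _ w y hw hdw hy
    obtain ⟨G, e, h5, h6, h7⟩ := Pool.Agent.Y741.strL_sub (k0 := ℚ) hn hd0 hf hind hC' hd hdw hy
    have hG : Forms ({G} : Set (MvPolynomial (Fin (n + 1)) ℂ)) := by
      rintro _ rfl
      exact ⟨e, h5⟩
    have h8 : LogGTOutside H d C {G} := out_iff.2 (by rintro _ rfl; exact h7)
    have k14 : LogGTOutside H d C {G} ↔ LinearlyBounded H d C {G} := (key {G} hG).out 1 3
    have k13 : LogGTOutside H d C {G} ↔ BuiltIn H d C {G} := (key {G} hG).out 1 2
    have hQ : aeval y (∏ b ∈ Cᶜ, H b) ≠ 0 := by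
      rw [map_prod]
      exact Finset.prod_ne_zero_iff.2 fun b hb => hy.1.2.2 b (Finset.mem_compl.1 hb)
    obtain ⟨h9, h10⟩ := Pool.Agent.X323.GI.bdd_fin hf hp hG (k14.1 h8) (y := y)
      (u := (aeval y (∏ b ∈ Cᶜ, H b))⁻¹) hy.1.2.1 (mul_inv_cancel₀ hQ)
    exact ⟨h7 K w y hw hy h6, G, e, h5, h6, h8, k13.1 h8, k14.1 h8,
      Pool.Agent.X323.GI.idl_ne hy.1.1 (inv_ne_zero hQ) h5 h6, h9, h10⟩
  · have h1 : ∀ W, ¬ Exceptional H C W := Pool.Agent.Y741.lf_none hf hind h
    exact ⟨k12.1 h1, k13.1 h1, k14.1 h1, k16.1 h1⟩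
  · have h1 : (∀ W, ¬ Exceptional H C W) ↔ 2 * n + 1 ≤ ∑ a, d a + C.card :=
      Pool.Agent.Y741.lf_exact hn hd0 hf hind h
    tfae_have 1 ↔ 2 := h1.symm.trans k12
    tfae_have 1 ↔ 3 := h1.symm.trans k13
    tfae_have 1 ↔ 4 := h1.symm.trans k14
    tfae_have 1 ↔ 5 := h1.symm.trans k15
    tfae_have 1 ↔ 6 := h1.symm.trans k16
    tfae_finish

end Pool.Agent.Results.MP_c69980_ag.GenericPairConditions
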