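import Mathlib
import Pool.Agent.X333.DC.Oen

/-!
MP_c69980_ag, Q1: entire curves, pointed morphisms, boundedness and log general type for the
complements of hypersurfaces in the images, under finite morphisms, of complex projective varieties
given by nested sums of few high powers of monomials.
-/

set_option autoImplicit false

namespace Pool.Agent.Results.MP_c69980_ag.NestedImageConditions

open Pool.Agent.W602.GT Pool.Agent.W603.GR Pool.Agent.TH710.ND Pool.Agent.Y221.FQ
  Pool.Agent.X333.DC

/-- Let `V` be the complex projective variety `F i = 0` in `ℙⁿ`, where the forms `F i` are nested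
sums of high powers of monomials, let `G : V → ℙᴹ` be a morphism with fibres of at most `r` points,
let `{Φ = 0}` be its image, let `Q` be a form of degree `q` in `M + 1` variables such that the
inverse image in `V` of the hypersurface `Q = 0` is the union of the intersections of `V` with the
coordinate hyperplanes `x_j = 0`, `j` in `U`, and let `X` be the variety `{Φ = 0, Q ≠ 0}`. First
part: let `T` be a set of forms, with the set `Δ` of its common zeros. The following are
equivalent: all nonconstant entire curves in `X` are in `Δ`; all nonconstant entire curves in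
`{Φ = 0}` which are not in `{Q = 0}` are in `Δ`; for every affine variety `Y`, every point `y` of
`Y` and every point `x` of `X` not in `Δ` there are only finitely many morphisms `Y → X` which map
`y` to `x`; all closed subvarieties of positive dimension of `X` which are not contained in `Δ` are
of log general type; their closures are of general type; the degrees of the morphisms
`f : C \ S → X`, with image not in `Δ`, are bounded for every curve `C` and every finite set `S` of
points (`X` is bounded modulo `Δ`); they are at most `A max (2 g (C) - 2 + |S|, 0)`; the degrees of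
the morphisms from curves `C` to `{Φ = 0}` with image not in `Δ` and not in `{Q = 0}` are at most
`A max (2 g (C) - 2, 0)`; all nonconstant morphisms from the multiplicative group to `X` have their
images in `Δ`; the images of all orbits in `V \ {x_j = 0, j ∈ U}` of one-parameter groups of
diagonal matrices which are not points are in `Δ`. Second part: let `z` be the generic point of an
irreducible component `Z` of `{Φ = 0}` which is not contained in the hypersurface `Q = 0`. Then
`Z \ {Q = 0}` is of log general type if and only if `Z` is of general type, if and only if the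
conditions of the first part on entire curves, on pointed morphisms, on boundedness, on the degrees
or on the multiplicative group hold outside some hypersurface `H = 0` which does not contain `Z`. -/
theorem result {n M : ℕ} {ι μ : Type} [Finite ι]
    (U : Set (Fin (n + 1))) (F : ι → MvPolynomial (Fin (n + 1)) ℂ)
    (Φ : μ → MvPolynomial (Fin (M + 1)) ℂ) (G : Fin (M + 1) → MvPolynomial (Fin (n + 1)) ℂ)
    (Q : MvPolynomial (Fin (M + 1)) ℂ) (q r s N h : ℕ)
    (hF : ∀ i, IsForm (F i) ∧ NestedIn IsMono s N h (F i)) (hΦ : ∀ e, IsForm (Φ e))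
    (hG : Mor F Φ G) (hon : Onto F Φ G) (hfib : FibresLe F G r) (hr : 1 ≤ r)
    (hN : (n + 1) * ((h + 1) * (4 * 10 ^ (2 * s) * (r + 1) ^ 7)) ≤ N) (hQ : Q.IsHomogeneous q)
    (hU : ∀ x ∈ Cone F, val (im G x) Q ≠ 0 ↔ ∀ j ∈ U, x j ≠ 0) :
    -- modulo a closed subset
    (∀ T : Set (MvPolynomial (Fin (M + 1)) ℂ), (∀ H ∈ T, IsForm H) →
      [EntQ Φ Q T, EntC Φ Q T, PtdQ Φ Q T, LgtQ Φ Q q T, GenQ Φ Q T, EachQ Φ Q q T,
        LinQ Φ Q q T, CovQ Φ Q T 1, GmQ Φ Q T,
        ∀ x b, DiagCurve U F x b → ∀ H ∈ T, val (im G x) H = 0].TFAE) ∧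
    -- the components
    ∀ (K : Type) [Field K] [Algebra ℂ K] (w : ℕ) (z : Fin (M + 1) → K), 1 ≤ w →
      SubVar Φ K w z → val z Q ≠ 0 → IsComponent Φ z →
      [∃ H : MvPolynomial (Fin (M + 1)) ℂ, IsForm H ∧ val z H ≠ 0 ∧ EntQ Φ Q {H},
        ∃ H : MvPolynomial (Fin (M + 1)) ℂ, IsForm H ∧ val z H ≠ 0 ∧ EntC Φ Q {H},
        ∃ H : MvPolynomial (Fin (M + 1)) ℂ, IsForm H ∧ val z H ≠ 0 ∧ PtdQ Φ Q {H},
        LogGeneralType ℂ K w (OffQ Q q z), GeneralType ℂ K w,
        ∃ H : MvPolynomial (Fin (M + 1)) ℂ, IsForm H ∧ val z H ≠ 0 ∧ EachQ Φ Q q {H},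
        ∃ H : MvPolynomial (Fin (M + 1)) ℂ, IsForm H ∧ val z H ≠ 0 ∧ LinQ Φ Q q {H},
        ∃ H : MvPolynomial (Fin (M + 1)) ℂ, IsForm H ∧ val z H ≠ 0 ∧ GmQ Φ Q {H}].TFAE :=
  ⟨fun _ hT => opc_tfae hΦ hG hon hfib hF hr hN hQ hU hT,
    fun _ _ _ _ _ hw hz hzQ hc => opc_comp hΦ hG hon hfib hF hr hN hQ hU hw hz hzQ hc⟩

end Pool.Agent.Results.MP_c69980_ag.NestedImageConditions
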