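import Mathlib
import Pool.Agent.X333.MC.Cx

/-!
MP_c69980_ag, Q1: entire curves, punctured discs, pointed morphisms, boundedness and log general
type for quasi-projective varieties given by nested sums of few high powers of monomials.
-/

set_option autoImplicit false

namespace Pool.Agent.Results.MP_c69980_ag.NestedMonomialConditions

open FF Pool.Agent.W602.RG Pool.Agent.W602.GT Pool.Agent.W603.LV Pool.Agent.W603.PV
  Pool.Agent.TH710.ND Pool.Agent.X333.MC
open Pool.Agent.H159R3.GGLLog (Irred EntireCurve PseudoBrody Preserves ActsTrivially)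
open Pool.Agent.W603.BP (PCurve Extends PseudoPicard)
open Pool.Agent.W603.CX (IsMap BoundedModulo LinearlyBounded)

/-- Let `X` be the quasi-projective variety `F i = 0`, `x_j ≠ 0` for `j` in `U`, in complex
projective `n`-space, where the forms `F i` are nested sums of few high powers of monomials. First
part: for every set `A` of polynomials, with the set `Δ` of its zeros, the following are
equivalent: all entire curves in `X` lie in `Δ`; all holomorphic maps from the punctured disc to `X`
with image not in `Δ` extend to the disc; `X` is bounded modulo `Δ`; the degrees of the maps from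
curves without finitely many points to `X` with image not in `Δ` are at most `B max (2 g - 2, 0)`;
all orbits of one-parameter groups of diagonal matrices which are in `X` and are not points are in
`Δ`. Second part: if `X` is irreducible, with function field `K` and generic point `y`, the
following are equivalent: `X` is pseudo-Brody hyperbolic; `X` is pseudo-Picard hyperbolic; outside
a proper closed subset, there are only finitely many morphisms from every affine variety `Y` to `X`
with a given value at a given point of `Y`; the same for curves; `X` is bounded modulo a proper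
closed subset; the same with a linear bound; every one-parameter group of diagonal matrices which
maps `X` to `X` acts trivially on `X`. Third part: these hold if `X` is of log general type, and if
the exponents are large they hold only if `X` is of log general type. -/
theorem result {n : ℕ} {ι : Type} [Finite ι] (U : Set (Fin (n + 1)))
    (F : ι → MvPolynomial (Fin (n + 1)) ℂ) (hF : ∀ i, IsForm (F i) ∧ MTower (F i)) :
    -- modulo a closed subset
    (∀ A : Set (MvPolynomial (Fin (n + 1)) ℂ),
      [∀ f, EntireCurve U F f → ∀ z, ∀ G ∈ A, MvPolynomial.eval (f z) G = 0,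
        ∀ f, PCurve U F f → (∃ z ∈ Metric.ball (0 : ℂ) 1 \ {0}, ∃ G ∈ A,
          MvPolynomial.eval (f z) G ≠ 0) → Extends f,
        ∀ (L : Type) [Field L] [Algebra ℂ L] [IsFF ℂ L] (S : Finset (Place ℂ L)), ∃ B : ℤ,
          ∀ f : Fin (n + 1) → L, IsMap U F S f → (∃ G ∈ A, MvPolynomial.aeval f G ≠ 0) →
            pht ℂ f ≤ B,
        ∃ B : ℕ, ∀ (L : Type) [Field L] [Algebra ℂ L] [IsFF ℂ L] (S : Finset (Place ℂ L))
          (f : Fin (n + 1) → L), IsMap U F S f → (∃ G ∈ A, MvPolynomial.aeval f G ≠ 0) →
            pht ℂ f ≤ B * max (canDeg ℂ L) 0,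
        ∀ x b, DiagCurve U F x b → ∀ G ∈ A, val x G = 0].TFAE) ∧
    ∀ (K : Type) [Field K] [Algebra ℂ K] (w : ℕ) (y : Fin (n + 1) → K),
      Irred U F → SubVarU U F K w y → GenericU U F y →
      -- the conditions
      [PseudoBrody U F, PseudoPicard U F, FewPointedMorphisms U F, FewPointedCurves U F,
        BoundedModulo U F, LinearlyBounded U F,
        ∀ b : Fin (n + 1) → ℤ, Preserves U b F → ActsTrivially U b F].TFAE ∧
      -- log general type
      (LogGeneralType ℂ K w (OffU U y) → FewPointedMorphisms U F) ∧
      ∀ s N h : ℕ, (∀ i, NestedIn IsMono s N h (F i)) →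
        (n + 1) * ((h + 1) * (2 * s + 1) ^ 5) ≤ N →
        [LogGeneralType ℂ K w (OffU U y), PseudoBrody U F, PseudoPicard U F,
          FewPointedMorphisms U F, BoundedModulo U F, LinearlyBounded U F].TFAE := by
  refine ⟨fun A => mod_cx (fun i => (hF i).2) (fun i => (hF i).1) A,
    fun K _ _ w y hirr hy hg => ?_⟩
  have h1 := cond_cx (fun i => (hF i).2) (fun i => (hF i).1) hirr hy hg
  have hcomp := comp_of_generic hg hy
  have h2 : NoActionU ℂ U y → FewPointedMorphisms U F := (h1.out 6 2).1
  refine ⟨?_, fun h => h2 (no_of_lgt (fun i => (hF i).1) hy hcomp h), fun s N h hF' hN => ?_⟩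
  · rw [← noAction_iff_triv (fun i => (hF i).1) hg hy]
    exact h1
  have h3 := comp_lgt (fun i => ⟨(hF i).1, hF' i⟩) hN hy hcomp
  have h4 : LogGeneralType ℂ K w (OffU U y) ↔ NoActionU ℂ U y := h3.out 0 7
  have h5 : PseudoBrody U F ↔ NoActionU ℂ U y := h1.out 0 6
  tfae_have 1 ↔ 2 := h4.trans h5.symm
  tfae_have 2 ↔ 3 := h1.out 0 1
  tfae_have 2 ↔ 4 := h1.out 0 2
  tfae_have 2 ↔ 5 := h1.out 0 4
  tfae_have 2 ↔ 6 := h1.out 0 5
  tfae_finish

end Pool.Agent.Results.MP_c69980_ag.NestedMonomialConditions
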