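import Pool.Agent.X316.ZE.Gm

/-!
# The extended Lang–Vojta conjecture for curves built from the Riemann zeta function

Let `X` be the complement of the hypersurface `Q = 0`, with `Q` a form of degree `d > 0`, in the
projective algebraic set of the ideal `I`, and let `Δ` be the closed subset of `X` cut out by the
ideal `I'`. The extended Lang–Vojta conjecture says that for varieties `X` the following conditions
are equivalent, for suitable proper closed subsets: the entire curves in `X` factor over `Δ`; the
pointed morphisms `(Y, y) → (X, x)` are finite in number for all `(Y, y)` and all `x` outside `Δ`;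
the morphisms `C → X` from a smooth curve which do not factor over `Δ` form a bounded family; `X` is
of logarithmic general type.

A family `u` of meromorphic functions on the plane is called jointly universal if the translates of
every finite subfamily approximate all tuples of zero-free entire functions uniformly on some disc.
By Voronin's theorem this holds for the Riemann zeta function alone.

We prove that the conditions are equivalent if the entire curves are those built from `ζ`, or from
any jointly universal family, and if the pointed variety `(Y, y)` and the curve `C` are the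
multiplicative group; and that these conditions hold, for a hypersurface `Δ`, if the subvarieties of
positive dimension of `X` outside `Δ` are of logarithmic general type.
-/

set_option autoImplicit false

namespace Pool.Agent.Results.MP_c69980_ag.ZetaAndGmConditions

open MvPolynomial
open scoped LinearAlgebra.Projectivization
open Pool.Agent.TH143.EL (Rep InV)
open Pool.Agent.W602.GT (IsForm)
open Pool.Agent.W603.GR (SubLogGT)
open Pool.Agent.W603.PV (IsHomog)
open Pool.Agent.Y377.IL
open Pool.Agent.X316.ZG (JointlyUniversal LogCurve)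
open Pool.Agent.X316.ZE (Prl GmMap GmIn)

variable {N : ℕ}

/-- all nonconstant entire curves in `X` built from `u` factor over `Δ` -/
def EntireIn {ι : Type} (u : ι → ℂ → ℂ) (I I' : Ideal (MvPolynomial (Fin (N + 1)) ℂ))
    (Q : MvPolynomial (Fin (N + 1)) ℂ) (d : ℕ) : Prop :=
  ∀ f, LogCurve I Q d u f → (∃ z w, f z ≠ f w) → ∀ z, InV I' (f z)

/-- for all points `x` of `X` outside `Δ` the set of the morphisms `φ : 𝔾ₘ → X` with `φ 1 = x`
is finite -/
def PointedFinite (I I' : Ideal (MvPolynomial (Fin (N + 1)) ℂ))
    (Q : MvPolynomial (Fin (N + 1)) ℂ) : Prop :=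
  ∀ x : ℙ ℂ (Fin (N + 1) → ℂ), InV I x → eval x.rep Q ≠ 0 → ¬ InV I' x →
    {φ : ℂˣ → ℙ ℂ (Fin (N + 1) → ℂ) | φ 1 = x ∧
      ∃ p, GmMap I Q p ∧ ∀ t : ℂˣ, Rep (φ t) fun j => (p j).eval (t : ℂ)}.Finite

/-- the morphisms `𝔾ₘ → X` which do not factor over `Δ` are given by polynomials of bounded
degree -/
def BoundedGm (I I' : Ideal (MvPolynomial (Fin (N + 1)) ℂ))
    (Q : MvPolynomial (Fin (N + 1)) ℂ) : Prop :=
  ∃ D : ℕ, ∀ p, GmMap I Q p → ¬ GmIn I' p → ∃ q, GmMap I Q q ∧ (∀ j, (q j).natDegree ≤ D) ∧
    ∀ t, t ≠ 0 → Prl (fun j => (q j).eval t) fun j => (p j).eval t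

theorem entire_of_gm {ι : Type} {u : ι → ℂ → ℂ} (hu : JointlyUniversal u)
    {I I' : Ideal (MvPolynomial (Fin (N + 1)) ℂ)} {Q : MvPolynomial (Fin (N + 1)) ℂ}
    {d : ℕ} (hd : 0 < d) (hQ : Q.IsHomogeneous d) (h : ∀ p, GmCurve I Q p → GmIn I' p) :
    EntireIn u I I' Q d := by
  rintro f hf ⟨z1, z2, hne⟩ z G hG hGh
  rcases Pool.Agent.X316.ZG.log_form hu hd hQ hf with h1 | h1
  · exact absurd (h1 z1 z2) hne
  · exact h1 G hGh (fun p hp t ht => h p hp t ht G hG hGh) z

theorem mono {B : Subalgebra ℂ (ℂ → ℂ)} {g : ℂ → ℂ} (h : IterLin ⊥ g) : IterLin B g := by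
  induction h with
  | quot h1 h2 => exact IterLin.quot (bot_le (a := B) h1) (bot_le (a := B) h2)
  | add _ _ h1 h2 => exact h1.add h2
  | mul _ _ h1 h2 => exact h1.mul h2
  | ode A y _ h2 h3 i h4 => exact IterLin.ode A y h4 h2 h3 i

theorem gm_of_entire {ι : Type} {u : ι → ℂ → ℂ}
    {I I' : Ideal (MvPolynomial (Fin (N + 1)) ℂ)} {Q : MvPolynomial (Fin (N + 1)) ℂ}
    {d : ℕ} (hd : 0 < d) (hQ : Q.IsHomogeneous d) (h : EntireIn u I I' Q d)
    {p : Fin (N + 1) → Polynomial ℂ} (hp : GmCurve I Q p) : GmIn I' p := by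
  intro t ht G hG hGh
  obtain ⟨f, h1, h2, h3, h4, h5, h6⟩ := iter_of_gm hd hQ hp
  have hm : GmMap I Q p := ⟨hp.1, hp.2.1⟩
  let x : ℙ ℂ (Fin (N + 1) → ℂ) := Projectivization.mk ℂ (fun j => (p j).eval t) (hm.ne hd hQ ht)
  have hx : Rep x fun j => (p j).eval t := ⟨hm.ne hd hQ ht, rfl⟩
  obtain ⟨z, hz⟩ := h6 t ht x hx
  have h7 := h f ⟨h1, h2, h3, Or.inl fun α hα => mono (h4 α hα)⟩ h5 z G hG hGh
  rw [hz] at h7
  exact (Pool.Agent.TH600.LE.rep_form hx hGh).1 h7

/-- **The extended Lang–Vojta conjecture for the curves built from the zeta function and for the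
multiplicative group.** Let `X` be the complement of `Q = 0`, with `Q` a form of degree `d > 0`, in
the algebraic set of the ideal `I`, and let `Δ` be the algebraic set of the ideal `I'`.

(1) The following are equivalent: for all jointly universal families `u`, the nonconstant entire
curves in `X` built from `u` factor over `Δ`; the nonconstant entire curves in `X` built from `ζ`
factor over `Δ`; the nonconstant morphisms from the multiplicative group to `X` factor over `Δ`; for
all points `x` of `X` outside `Δ`, there are only finitely many morphisms `φ : 𝔾ₘ → X` with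
`φ 1 = x`; the morphisms from the multiplicative group to `X` which do not factor over `Δ` are of
bounded degree.

(2) These conditions hold with `Δ` the hypersurface `G = 0` if `I` is homogeneous and if all
subvarieties of positive dimension of `X` which are not contained in `G = 0` are of logarithmic
general type. -/
theorem result (I : Ideal (MvPolynomial (Fin (N + 1)) ℂ)) (Q : MvPolynomial (Fin (N + 1)) ℂ)
    (d : ℕ) (hd : 0 < d) (hQ : Q.IsHomogeneous d) :
    (∀ I' : Ideal (MvPolynomial (Fin (N + 1)) ℂ),
      List.TFAE [∀ (ι : Type) (u : ι → ℂ → ℂ), JointlyUniversal u → EntireIn u I I' Q d,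
        EntireIn (fun _ : Unit => riemannZeta) I I' Q d,
        ∀ p, GmCurve I Q p → GmIn I' p,
        PointedFinite I I' Q,
        BoundedGm I I' Q]) ∧
    ∀ G : MvPolynomial (Fin (N + 1)) ℂ, IsForm G → IsHomog I → SubLogGT I Q d G →
      (∀ (ι : Type) (u : ι → ℂ → ℂ), JointlyUniversal u → EntireIn u I (Ideal.span {G}) Q d) ∧
      PointedFinite I (Ideal.span {G}) Q ∧ BoundedGm I (Ideal.span {G}) Q := by
  have main : ∀ I' : Ideal (MvPolynomial (Fin (N + 1)) ℂ),
      List.TFAE [∀ (ι : Type) (u : ι → ℂ → ℂ), JointlyUniversal u → EntireIn u I I' Q d,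
        EntireIn (fun _ : Unit => riemannZeta) I I' Q d,
        ∀ p, GmCurve I Q p → GmIn I' p,
        PointedFinite I I' Q,
        BoundedGm I I' Q] := by
    intro I'
    tfae_have 1 → 2 := fun h => h _ _ Pool.Agent.X316.ZG.zeta_universal
    tfae_have 2 → 3 := fun h p hp => gm_of_entire hd hQ h hp
    tfae_have 3 → 1 := fun h ι u hu => entire_of_gm hu hd hQ h
    tfae_have 3 → 4 := fun h x _ _ hx => Pool.Agent.X316.ZE.pointed_of_in h x hx
    tfae_have 4 → 3 := fun h p hp => Pool.Agent.X316.ZE.in_of_pointed hd hQ h hp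
    tfae_have 3 → 5 := fun h => ⟨0, fun p hp hnot => Pool.Agent.X316.ZE.bounded_of_in h hp hnot⟩
    tfae_have 5 → 3 := by
      rintro ⟨D, hD⟩ p hp
      exact Pool.Agent.X316.ZE.in_of_bounded hd hQ hD hp
    tfae_finish
  refine ⟨main, fun G hG hI hS => ?_⟩
  have h1 : ∀ (ι : Type) (u : ι → ℂ → ℂ), JointlyUniversal u →
      EntireIn u I (Ideal.span {G}) Q d := by
    rintro ι u hu f hf ⟨z, w, hne⟩ z' H hH -
    rcases Pool.Agent.X316.ZG.log_sub hu hd hI hQ hG hS hf with h1 | h1
    · exact absurd (h1 z w) hne
    · obtain ⟨a, rfl⟩ := Ideal.mem_span_singleton'.1 hH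
      rw [map_mul, h1 z', mul_zero]
  exact ⟨h1, ((main _).out 0 3).1 h1, ((main _).out 0 4).1 h1⟩

end Pool.Agent.Results.MP_c69980_ag.ZetaAndGmConditions
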